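import Pool.Agent.Helper91.HV.DIPb

/-! Sheet HV, row DIP: energy of dipoles in different balls. -/

set_option autoImplicit false

namespace Pool.Agent.Helper91.HV

open MeasureTheory Filter Topology Pool.Agent.Helper95.PW Pool.Agent.Helper95.LN
open Pool.Agent.Helper95.HV
open Pool.Agent.Helper64.HS Pool.Agent.Helper94.LN

theorem DIP (h1 : ST_MVP) (h2 : ST_PHA) (h3 : ST_PHB) (h4 : ST_PHC) : ST_DIP := by
  intro d hd hd1
  obtain ⟨hcb, hkap, ⟨C1, hC1, hetb⟩, hPHC⟩ := h4
  obtain ⟨b, hb⟩ : ∃ b : ℝ, b = d / 8 := ⟨_, rfl⟩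
  have hb0 : 0 < b := by rw [hb]; positivity
  obtain ⟨hphs, -, -, -, -⟩ := h2 b hb0
  obtain ⟨hlapph, hpdb, -, -⟩ := h3 b hb0
  obtain ⟨hets, het0, hetz, -, -, hetint⟩ := hPHC b hb0
  have hetc : HasCompactSupport (et b) := by
    refine HasCompactSupport.intro (isCompact_closedBall (0 : R3) b) fun w hw => ?_
    rw [mem_closedBall_zero_iff, not_le] at hw
    exact hetz _ (hw.le.trans (norm_le_nr _))
  have htr : ∀ (y : R3) {g : R3 → ℝ}, HasCompactSupport g →
      HasCompactSupport (fun w => g (w - y)) := fun y g hg =>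
    hg.comp_isClosedEmbedding (Homeomorph.subRight y).isClosedEmbedding
  -- constants
  obtain ⟨E1, hE1⟩ : ∃ E1 : ℝ, E1 = ∑ i, ∫ w, |pd i (et b) w| := ⟨_, rfl⟩
  have hE10 : 0 ≤ E1 := by
    rw [hE1]
    exact Finset.sum_nonneg fun i _ => integral_nonneg fun w => abs_nonneg _
  obtain ⟨c, hc⟩ : ∃ c : ℝ, c = 3 * (C1 / b ^ 3 * kap) + 12 / b ^ 2 * E1 := ⟨_, rfl⟩
  have hc0 : 0 ≤ c := by rw [hc]; positivity
  refine ⟨c / (2 * kap) + 1, by positivity, ?_⟩
  intro n M X x a K hS haK ha0
  -- the density and the potential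
  let F : Fin 3 → R3 → ℝ := fun i w => ∑ k, a k i * et b (w - x k)
  let P : Fin 3 → R3 → ℝ := fun m w => ∑ k, a k m * pd m (ph b) (w - x k)
  let Φ : R3 → ℝ := fun w => ∑ m, P m w
  have hF : ∀ i, ContDiff ℝ (⊤ : ℕ∞) (F i) := fun i => cd_lin (fun k => a k i) x hets
  have hP : ∀ m, ContDiff ℝ (⊤ : ℕ∞) (P m) := fun m => cd_lin (fun k => a k m) x (pd_cd hphs m)
  have hΦ : ContDiff ℝ (⊤ : ℕ∞) Φ := ContDiff.sum fun m _ => hP m
  have hpF : ∀ i w, pd i (F i) w = ∑ l, a l i * pd i (et b) (w - x l) := by
    intro i w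
    exact congrFun (pd_lin (fun k => a k i) x hets i) w
  have hFc : ∀ i, HasCompactSupport (F i) := by
    intro i
    obtain ⟨R, hR⟩ : ∃ R : ℝ, ∀ k, ‖x k‖ ≤ R := by
      refine ⟨∑ k, ‖x k‖, fun k => ?_⟩
      exact Finset.single_le_sum (f := fun k => ‖x k‖) (fun j _ => norm_nonneg _)
        (Finset.mem_univ k)
    refine HasCompactSupport.intro (isCompact_closedBall (0 : R3) (R + b)) fun w hw => ?_
    rw [mem_closedBall_zero_iff, not_le] at hw
    refine Finset.sum_eq_zero fun k _ => ?_
    rw [hetz, mul_zero]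
    have e1 := norm_sub_norm_le w (x k)
    have e2 := norm_le_nr (w - x k)
    have e3 := hR k
    linarith
  have hlappd : ∀ (m : Fin 3) (y : R3), lap (pd m (ph b)) y = -pd m (et b) y := by
    intro m y
    rw [lap_pd hphs m y]
    have e1 : lap (ph b) = fun v => -et b v := funext hlapph
    rw [e1]
    unfold pd
    rw [fderiv_fun_neg]
    rfl
  have hl : ∀ w, lap Φ w = -∑ i, pd i (F i) w := by
    intro w
    show lap (fun w => ∑ m, P m w) w = _
    rw [lap_fsum P hP w, ← Finset.sum_neg_distrib]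
    refine Finset.sum_congr rfl fun m _ => ?_
    rw [hpF m w]
    show lap (fun w => ∑ k, a k m * pd m (ph b) (w - x k)) w = _
    rw [lap_lin (fun k => a k m) x (pd_cd hphs m) w, ← Finset.sum_neg_distrib]
    refine Finset.sum_congr rfl fun k _ => ?_
    rw [hlappd]
    ring
  have hbd : ∀ w, |Φ w| ≤ (∑ m : Fin 3, ∑ k, |a k m| * ((16 / b ^ 2 + 4) * (1 + ‖x k‖) ^ 2)) *
      eidE w ^ 2 := by
    intro w
    refine (Finset.abs_sum_le_sum_abs _ _).trans ?_
    rw [Finset.sum_mul]
    refine Finset.sum_le_sum fun m _ => ?_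
    refine (Finset.abs_sum_le_sum_abs _ _).trans ?_
    rw [Finset.sum_mul]
    refine Finset.sum_le_sum fun k _ => ?_
    rw [abs_mul, mul_assoc]
    refine mul_le_mul_of_nonneg_left ?_ (abs_nonneg _)
    refine (eid_pd_bd h3 hb0 m (w - x k)).trans ?_
    have e2 := eidE_tr (x k) w
    have e3 := eidE_pos (w - x k)
    have e4 : eidE (w - x k) ^ 2 ≤ ((1 + ‖x k‖) * eidE w) ^ 2 := by gcongr
    calc (16 / b ^ 2 + 4) * eidE (w - x k) ^ 2
        ≤ (16 / b ^ 2 + 4) * ((1 + ‖x k‖) * eidE w) ^ 2 := by gcongr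
      _ = (16 / b ^ 2 + 4) * (1 + ‖x k‖) ^ 2 * eidE w ^ 2 := by ring
  have hgreen := dipGL hΦ hF hFc hl _ hbd
  -- expansion
  let Q : Fin n → Fin n → Fin 3 → Fin 3 → ℝ := fun k l m i =>
    ∫ w, pd m (ph b) (w - x k) * pd i (et b) (w - x l)
  let J : Fin n → Fin n → ℝ := fun k l => ∑ i, ∑ m, a k m * a l i * Q k l m i
  have hQint : ∀ k l m i, Integrable fun w => pd m (ph b) (w - x k) * pd i (et b) (w - x l) :=
    fun k l m i => by
      refine Continuous.integrable_of_hasCompactSupport ?_ (htr (x l) (pd_cs hetc i)).mul_left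
      exact ((pd_cd hphs m).continuous.comp (continuous_id.sub continuous_const)).mul
        ((pd_cd hets i).continuous.comp (continuous_id.sub continuous_const))
  have hexp : ∑ i, ∫ w, Φ w * pd i (F i) w = ∑ k, ∑ l, J k l := by
    have e1 : ∀ i, ∫ w, Φ w * pd i (F i) w = ∑ m, ∑ k, ∑ l, a k m * a l i * Q k l m i := by
      intro i
      have e2 : ∀ w, Φ w * pd i (F i) w = ∑ m, ∑ k, ∑ l,
          a k m * a l i * (pd m (ph b) (w - x k) * pd i (et b) (w - x l)) := by
        intro w
        rw [hpF i w]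
        show (∑ m, ∑ k, a k m * pd m (ph b) (w - x k)) * _ = _
        rw [Finset.sum_mul]
        refine Finset.sum_congr rfl fun m _ => ?_
        rw [Finset.sum_mul_sum]
        refine Finset.sum_congr rfl fun k _ => Finset.sum_congr rfl fun l _ => ?_
        ring
      rw [integral_congr_ae (Eventually.of_forall e2)]
      rw [integral_finsetSum _ fun m _ => integrable_finsetSum _ fun k _ =>
        integrable_finsetSum _ fun l _ => (hQint k l m i).const_mul _]
      refine Finset.sum_congr rfl fun m _ => ?_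
      rw [integral_finsetSum _ fun k _ => integrable_finsetSum _ fun l _ =>
        (hQint k l m i).const_mul _]
      refine Finset.sum_congr rfl fun k _ => ?_
      rw [integral_finsetSum _ fun l _ => (hQint k l m i).const_mul _]
      refine Finset.sum_congr rfl fun l _ => ?_
      rw [integral_const_mul]
    rw [Finset.sum_congr rfl fun i _ => e1 i]
    show _ = ∑ k, ∑ l, ∑ i, ∑ m, a k m * a l i * Q k l m i
    calc ∑ i, ∑ m, ∑ k, ∑ l, a k m * a l i * Q k l m i
        = ∑ i, ∑ k, ∑ l, ∑ m, a k m * a l i * Q k l m i := by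
          refine Finset.sum_congr rfl fun i _ => ?_
          rw [Finset.sum_comm]
          refine Finset.sum_congr rfl fun k _ => ?_
          rw [Finset.sum_comm]
      _ = ∑ k, ∑ i, ∑ l, ∑ m, a k m * a l i * Q k l m i := Finset.sum_comm
      _ = _ := by
          refine Finset.sum_congr rfl fun k _ => ?_
          rw [Finset.sum_comm]
  -- far pairs
  have hlapz : ∀ (i m : Fin 3) (y : R3), b < nr y → lap (pd i (pd m (ph b))) y = 0 := by
    intro i m y hy
    rw [lap_pd (pd_cd hphs m) i y]
    have e1 : lap (pd m (ph b)) =ᶠ[nhds y] fun _ => (0 : ℝ) := by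
      have e2 : ∀ᶠ v in nhds y, b < nr v := nr_cont.continuousAt.eventually (lt_mem_nhds hy)
      filter_upwards [e2] with v hv
      rw [hlappd]
      have e3 : et b =ᶠ[nhds v] fun _ => (0 : ℝ) := by
        have e4 : ∀ᶠ u in nhds v, b < nr u := nr_cont.continuousAt.eventually (lt_mem_nhds hv)
        filter_upwards [e4] with u hu
        exact hetz u hu.le
      unfold pd
      rw [e3.fderiv_eq]
      simp
    show fderiv ℝ (lap (pd m (ph b))) y (Pi.single i 1) = 0
    rw [e1.fderiv_eq]
    simp
  have hQfar : ∀ k l m i, d < nr (x k - x l) →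
      Q k l m i = -(kap * (3 * (x l - x k) i * (x l - x k) m / nr (x k - x l) ^ 5 -
        (if i = m then 1 else 0) / nr (x k - x l) ^ 3)) := by
    intro k l m i hkl
    have e0 : ContDiff ℝ (⊤ : ℕ∞) (fun w => pd m (ph b) (w - x k)) :=
      (pd_cd hphs m).comp (contDiff_id.sub contDiff_const)
    have e0' : ContDiff ℝ (⊤ : ℕ∞) (fun w => et b (w - x l)) :=
      hets.comp (contDiff_id.sub contDiff_const)
    have e1 := eid_ibp i e0 e0' (htr (x l) hetc)
    have e2 : ∀ w, pd i (fun w => et b (w - x l)) w = pd i (et b) (w - x l) := fun w =>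
      eid_pd_tr (eid_diff hets) i (x l) w
    have e3 : ∀ w, pd i (fun w => pd m (ph b) (w - x k)) w = pd i (pd m (ph b)) (w - x k) :=
      fun w => eid_pd_tr (eid_diff (pd_cd hphs m)) i (x k) w
    simp_rw [e2, e3] at e1
    show ∫ w, pd m (ph b) (w - x k) * pd i (et b) (w - x l) = _
    rw [e1]
    have e4 : ContDiff ℝ (⊤ : ℕ∞) (fun w => pd i (pd m (ph b)) (w - x k)) :=
      (pd_cd (pd_cd hphs m) i).comp (contDiff_id.sub contDiff_const)
    have e5 := (h1 (fun w => pd i (pd m (ph b)) (w - x k)) (x l) b e4 hb0).1 (by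
      intro w hw
      have e6 := lap_lin (ι := Fin 1) (fun _ => 1) (fun _ => x k) (pd_cd (pd_cd hphs m) i) w
      simp only [Finset.univ_unique, Finset.sum_singleton, one_mul] at e6
      rw [e6]
      apply hlapz
      have e7 := nr_tri (x k) w (x l)
      rw [nr_comm (x k) w] at e7
      linarith)
    rw [e5, ph_hess h3 hb0 i m (x l - x k) (by rw [nr_comm]; linarith), nr_comm (x l) (x k)]
  have hJfar : ∀ k l, d < nr (x k - x l) → J k l = -(kap * Tq (x k - x l) (a k) (a l)) := by
    intro k l hkl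
    show ∑ i, ∑ m, a k m * a l i * Q k l m i = _
    simp_rw [hQfar k l _ _ hkl]
    unfold Tq
    simp only [Fin.sum_univ_three, Pi.sub_apply]
    simp
    ring
  -- near pairs
  have hQb : ∀ k l m i, |Q k l m i| ≤ 4 / b ^ 2 * ∫ w, |pd i (et b) w| := by
    intro k l m i
    have e1 : Integrable (pd i (et b)) :=
      (pd_cd hets i).continuous.integrable_of_hasCompactSupport (pd_cs hetc i)
    have e2 : Integrable (fun w => |pd i (et b) (w - x l)|) :=
      (e1.comp_sub_right (x l)).abs
    have e3 : ∫ w, |pd i (et b) (w - x l)| = ∫ w, |pd i (et b) w| :=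
      integral_sub_right_eq_self (fun w => |pd i (et b) w|) (x l)
    rw [← e3, ← integral_const_mul]
    refine (abs_integral_le_integral_abs).trans ?_
    refine integral_mono (hQint k l m i).abs (e2.const_mul _) fun w => ?_
    simp only
    rw [abs_mul]
    exact mul_le_mul_of_nonneg_right (hpdb m _) (abs_nonneg _)
  have haa : ∀ k l m i, |a k m * a l i| ≤ K ^ 2 := by
    intro k l m i
    rw [abs_mul, pow_two]
    exact mul_le_mul (haK k m) (haK l i) (abs_nonneg _) ((abs_nonneg _).trans (haK k m))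
  have hJb : ∀ k l, |J k l| ≤ 12 / b ^ 2 * E1 * K ^ 2 := by
    intro k l
    have e1 : ∀ i m, |a k m * a l i * Q k l m i| ≤
        K ^ 2 * (4 / b ^ 2 * ∫ w, |pd i (et b) w|) := by
      intro i m
      rw [abs_mul]
      exact mul_le_mul (haa k l m i) (hQb k l m i) (abs_nonneg _) (sq_nonneg _)
    refine (Finset.abs_sum_le_sum_abs _ _).trans ?_
    have e2 : ∀ i, |∑ m, a k m * a l i * Q k l m i| ≤
        3 * (K ^ 2 * (4 / b ^ 2 * ∫ w, |pd i (et b) w|)) := by
      intro i
      refine (Finset.abs_sum_le_sum_abs _ _).trans ?_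
      refine (Finset.sum_le_sum fun m _ => e1 i m).trans ?_
      rw [Finset.sum_const, Finset.card_univ, Fintype.card_fin, nsmul_eq_mul]
      norm_num
    refine (Finset.sum_le_sum fun i _ => e2 i).trans ?_
    rw [hE1, Finset.mul_sum, Finset.sum_mul]
    refine Finset.sum_le_sum fun i _ => le_of_eq ?_
    ring
  have hJ0 : ∀ k l, a k = 0 ∨ a l = 0 → J k l = 0 := by
    intro k l hkl
    refine Finset.sum_eq_zero fun i _ => Finset.sum_eq_zero fun m _ => ?_
    rcases hkl with h | h <;> rw [h] <;> simp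
  -- the square of the density
  let W : Fin n → Fin n → ℝ := fun k l => ∑ i, a k i * a l i * ∫ w, et b (w - x k) * et b (w - x l)
  have hWint : ∀ k l, Integrable fun w => et b (w - x k) * et b (w - x l) := fun k l => by
    refine Continuous.integrable_of_hasCompactSupport ?_ (htr (x l) hetc).mul_left
    exact (hets.continuous.comp (continuous_id.sub continuous_const)).mul
      (hets.continuous.comp (continuous_id.sub continuous_const))
  have hW : ∑ i, ∫ w, F i w ^ 2 = ∑ k, ∑ l, W k l := by
    have e1 : ∀ i, ∫ w, F i w ^ 2 = ∑ k, ∑ l,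
        a k i * a l i * ∫ w, et b (w - x k) * et b (w - x l) := by
      intro i
      have e2 : ∀ w, F i w ^ 2 = ∑ k, ∑ l, a k i * a l i * (et b (w - x k) * et b (w - x l)) := by
        intro w
        show (∑ k, a k i * et b (w - x k)) ^ 2 = _
        rw [pow_two, Finset.sum_mul_sum]
        refine Finset.sum_congr rfl fun k _ => Finset.sum_congr rfl fun l _ => ?_
        ring
      rw [integral_congr_ae (Eventually.of_forall e2)]
      rw [integral_finsetSum _ fun k _ => integrable_finsetSum _ fun l _ =>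
        (hWint k l).const_mul _]
      refine Finset.sum_congr rfl fun k _ => ?_
      rw [integral_finsetSum _ fun l _ => (hWint k l).const_mul _]
      refine Finset.sum_congr rfl fun l _ => ?_
      rw [integral_const_mul]
    rw [Finset.sum_congr rfl fun i _ => e1 i, Finset.sum_comm]
    refine Finset.sum_congr rfl fun k _ => ?_
    rw [Finset.sum_comm]
  have hEE : ∀ k l, |∫ w, et b (w - x k) * et b (w - x l)| ≤ C1 / b ^ 3 * kap := by
    intro k l
    have e2 : Integrable (fun w => et b (w - x l)) :=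
      (hets.continuous.integrable_of_hasCompactSupport hetc).comp_sub_right (x l)
    have e3 : ∫ w, et b (w - x l) = kap := by
      rw [integral_sub_right_eq_self (fun w => et b w) (x l)]
      exact hetint
    rw [abs_of_nonneg (integral_nonneg fun w => mul_nonneg (het0 _) (het0 _)), ← e3,
      ← integral_const_mul]
    refine integral_mono (hWint k l) (e2.const_mul _) fun w => ?_
    exact mul_le_mul_of_nonneg_right (hetb b _ hb0) (het0 _)
  have hWb : ∀ k l, |W k l| ≤ 3 * (C1 / b ^ 3 * kap) * K ^ 2 := by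
    intro k l
    refine (Finset.abs_sum_le_sum_abs _ _).trans ?_
    have e1 : ∀ i, |a k i * a l i * ∫ w, et b (w - x k) * et b (w - x l)| ≤
        K ^ 2 * (C1 / b ^ 3 * kap) := by
      intro i
      rw [abs_mul]
      exact mul_le_mul (haa k l i i) (hEE k l) (abs_nonneg _) (sq_nonneg _)
    refine (Finset.sum_le_sum fun i _ => e1 i).trans (le_of_eq ?_)
    rw [Finset.sum_const, Finset.card_univ, Fintype.card_fin, nsmul_eq_mul]
    push_cast
    ring
  have hW0 : ∀ k l, a k = 0 ∨ a l = 0 ∨ d < nr (x k - x l) → W k l = 0 := by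
    intro k l hkl
    refine Finset.sum_eq_zero fun i _ => ?_
    rcases hkl with h | h | h
    · rw [h]; simp
    · rw [h]; simp
    · have e1 : ∀ w, et b (w - x k) * et b (w - x l) = 0 := by
        intro w
        by_cases hw : b ≤ nr (w - x k)
        · rw [hetz _ hw, zero_mul]
        · rw [hetz (w - x l), mul_zero]
          have e7 := nr_tri (x k) w (x l)
          rw [nr_comm (x k) w] at e7
          rw [not_le] at hw
          linarith
      rw [integral_congr_ae (Eventually.of_forall e1)]
      simp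
  -- counting
  have hcount : ∀ k l, (a k ≠ 0 ∧ a l ≠ 0 ∧ nr (x k - x l) ≤ d) →
      (1 : ℝ) ≤ ∑ i, (if nr (x k - X i) < 3 / 2 * d then 1 else 0) *
        (if nr (x l - X i) < 3 / 2 * d then 1 else 0) := by
    rintro k l ⟨hk, hl', hkl⟩
    have e1 : ∃ i, nr (x k - X i) ≤ d / 2 := by
      by_contra hcon
      push Not at hcon
      exact hk (ha0 k hcon)
    have e2 : ∃ i, nr (x l - X i) ≤ d / 2 := by
      by_contra hcon
      push Not at hcon
      exact hl' (ha0 l hcon)
    obtain ⟨i, hi⟩ := e1
    obtain ⟨j, hj⟩ := e2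
    have hij : i = j := by
      by_contra hne
      have e3 := hS i j hne
      have e4 := nr_tri (X i) (x k) (X j)
      have e5 := nr_tri (x k) (x l) (X j)
      rw [nr_comm (X i) (x k)] at e4
      linarith
    subst hij
    have e6 : (if nr (x k - X i) < 3 / 2 * d then (1 : ℝ) else 0) = 1 := if_pos (by linarith)
    have e7 : (if nr (x l - X i) < 3 / 2 * d then (1 : ℝ) else 0) = 1 := if_pos (by linarith)
    have e8 := Finset.single_le_sum (f := fun i =>
      (if nr (x k - X i) < 3 / 2 * d then (1 : ℝ) else 0) *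
        (if nr (x l - X i) < 3 / 2 * d then 1 else 0))
      (fun j _ => by positivity) (Finset.mem_univ i)
    simp only [e6, e7, mul_one] at e8
    exact e8
  have hcsum : ∑ k, ∑ l, ∑ i, (if nr (x k - X i) < 3 / 2 * d then (1 : ℝ) else 0) *
      (if nr (x l - X i) < 3 / 2 * d then 1 else 0) = ∑ i, cnt X (3 / 2 * d) x i ^ 2 := by
    unfold cnt
    calc _ = ∑ k, ∑ i, ∑ l, (if nr (x k - X i) < 3 / 2 * d then (1 : ℝ) else 0) *
          (if nr (x l - X i) < 3 / 2 * d then 1 else 0) := by
          refine Finset.sum_congr rfl fun k _ => ?_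
          rw [Finset.sum_comm]
      _ = ∑ i, ∑ k, ∑ l, (if nr (x k - X i) < 3 / 2 * d then (1 : ℝ) else 0) *
          (if nr (x l - X i) < 3 / 2 * d then 1 else 0) := Finset.sum_comm
      _ = _ := by
          refine Finset.sum_congr rfl fun i _ => ?_
          have e1 := Finset.sum_mul_sum (Finset.univ : Finset (Fin n)) (Finset.univ : Finset (Fin n))
            (fun k => if nr (x k - X i) < 3 / 2 * d then (1 : ℝ) else 0)
            (fun k => if nr (x k - X i) < 3 / 2 * d then (1 : ℝ) else 0)
          rw [pow_two]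
          exact e1.symm
  -- pairwise inequality
  have hpair : ∀ k l, W k l - (J k l + (if d < nr (x k - x l) then
      kap * Tq (x k - x l) (a k) (a l) else 0)) ≤ c * K ^ 2 *
      ∑ i, (if nr (x k - X i) < 3 / 2 * d then (1 : ℝ) else 0) *
        (if nr (x l - X i) < 3 / 2 * d then 1 else 0) := by
    intro k l
    have hq : 0 ≤ ∑ i, (if nr (x k - X i) < 3 / 2 * d then (1 : ℝ) else 0) *
        (if nr (x l - X i) < 3 / 2 * d then 1 else 0) :=
      Finset.sum_nonneg fun j _ => by positivity
    have hr : 0 ≤ c * K ^ 2 := by positivity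
    by_cases hkl : d < nr (x k - x l)
    · rw [if_pos hkl, hJfar k l hkl, hW0 k l (Or.inr (Or.inr hkl))]
      have := mul_nonneg hr hq
      linarith
    · rw [if_neg hkl]
      by_cases hz : a k = 0 ∨ a l = 0
      · rw [hJ0 k l hz, hW0 k l (by tauto)]
        have := mul_nonneg hr hq
        linarith
      · push Not at hz
        have e1 := hcount k l ⟨hz.1, hz.2, not_lt.1 hkl⟩
        have e2 := hJb k l
        have e3 := hWb k l
        have e4 := neg_abs_le (J k l)
        have e5 := le_abs_self (W k l)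
        have e6 : c * K ^ 2 = 3 * (C1 / b ^ 3 * kap) * K ^ 2 + 12 / b ^ 2 * E1 * K ^ 2 := by
          rw [hc]; ring
        have e7 := mul_le_mul_of_nonneg_left e1 hr
        linarith
  have hsum := Finset.sum_le_sum fun k (_ : k ∈ Finset.univ) =>
    Finset.sum_le_sum fun l (_ : l ∈ Finset.univ) => hpair k l
  simp only [Finset.sum_sub_distrib, Finset.sum_add_distrib, ← Finset.mul_sum] at hsum
  rw [hcsum, ← hW, ← hexp] at hsum
  -- symmetry
  have hTsym : ∀ k l, Tq (x k - x l) (a k) (a l) = Tq (x l - x k) (a l) (a k) := by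
    intro k l
    unfold Tq
    rw [nr_comm (x k) (x l)]
    simp only [Fin.sum_univ_three, Pi.sub_apply]
    ring
  let S : ℝ := ∑ k, ∑ l, if k < l ∧ d < nr (x k - x l) then Tq (x k - x l) (a k) (a l) else 0
  have hS2 : ∑ k, ∑ l, (if d < nr (x k - x l) then kap * Tq (x k - x l) (a k) (a l) else 0) =
      2 * kap * S := by
    have e1 : ∀ k l, (if d < nr (x k - x l) then kap * Tq (x k - x l) (a k) (a l) else 0) =
        kap * (if k < l ∧ d < nr (x k - x l) then Tq (x k - x l) (a k) (a l) else 0) +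
        kap * (if l < k ∧ d < nr (x l - x k) then Tq (x l - x k) (a l) (a k) else 0) := by
      intro k l
      rcases lt_trichotomy k l with h | h | h
      · have h' : ¬ l < k := not_lt.2 h.le
        by_cases hkl : d < nr (x k - x l)
        · simp [h, h', hkl]
        · simp [h', hkl]
      · subst h
        have e2 : ¬ d < nr (x k - x k) := by
          rw [sub_self]
          have : nr (0 : R3) = 0 := by unfold nr; simp
          rw [this]
          linarith
        rw [if_neg e2, if_neg (fun h => e2 h.2)]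
        ring
      · have h' : ¬ k < l := not_lt.2 h.le
        by_cases hkl : d < nr (x k - x l)
        · have hkl' : d < nr (x l - x k) := by rw [nr_comm]; exact hkl
          simp [h, h', hkl, hkl', hTsym k l]
        · have hkl' : ¬ d < nr (x l - x k) := by rw [nr_comm]; exact hkl
          simp [h', hkl, hkl']
    simp_rw [e1, Finset.sum_add_distrib, ← Finset.mul_sum]
    have e3 : ∑ k, ∑ l, (if l < k ∧ d < nr (x l - x k) then Tq (x l - x k) (a l) (a k) else 0) =
        S := Finset.sum_comm
    rw [e3]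
    show kap * S + kap * S = _
    ring
  rw [hS2] at hsum
  show -S ≤ _
  obtain ⟨T, hT⟩ : ∃ T : ℝ, T = ∑ i, cnt X (3 / 2 * d) x i ^ 2 := ⟨_, rfl⟩
  rw [← hT] at hsum ⊢
  have hT0 : 0 ≤ T := by rw [hT]; positivity
  have f1 : -(2 * kap * S) ≤ c * K ^ 2 * T := by linarith
  have f2 : -S ≤ c / (2 * kap) * K ^ 2 * T := by
    have e1 : c / (2 * kap) * K ^ 2 * T = (c * K ^ 2 * T) / (2 * kap) := by ring
    rw [e1, le_div_iff₀ (by positivity)]
    linarith
  have f3 : 0 ≤ K ^ 2 * T := by positivity
  nlinarith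

end Pool.Agent.Helper91.HV
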