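import Pool.Agent.Helper91.HV.DIPa

/-! Sheet HV, row DIP: energy of dipoles in different balls. -/

set_option autoImplicit false

namespace Pool.Agent.Helper91.HV

open MeasureTheory Filter Topology Pool.Agent.Helper95.PW Pool.Agent.Helper95.LN
open Pool.Agent.Helper95.HV
open Pool.Agent.Helper64.HS Pool.Agent.Helper94.LN

theorem pd_fsum {ι : Type} [Fintype ι] (g : ι → R3 → ℝ) (hg : ∀ m, ContDiff ℝ (⊤ : ℕ∞) (g m))
    (i : Fin 3) : pd i (fun w => ∑ m, g m w) = fun w => ∑ m, pd i (g m) w := by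
  funext w
  show fderiv ℝ (fun w => ∑ m, g m w) w (Pi.single i 1) = _
  rw [fderiv_fun_sum (fun a _ => ((hg a).differentiable (by simp)) w), sum_apply]
  rfl

theorem lap_fsum {ι : Type} [Fintype ι] (g : ι → R3 → ℝ) (hg : ∀ m, ContDiff ℝ (⊤ : ℕ∞) (g m))
    (w : R3) : lap (fun w => ∑ m, g m w) w = ∑ m, lap (g m) w := by
  unfold lap
  have h : ∀ i : Fin 3, pd i (pd i (fun w => ∑ m, g m w)) w = ∑ m, pd i (pd i (g m)) w := by
    intro i
    rw [pd_fsum g hg i, pd_fsum (fun m => pd i (g m)) (fun m => pd_cd (hg m) i) i]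
  rw [Finset.sum_congr rfl fun i _ => h i, Finset.sum_comm]

theorem nr_sq (y : R3) : nr y ^ 2 = y 0 ^ 2 + y 1 ^ 2 + y 2 ^ 2 := by
  unfold nr
  exact Real.sq_sqrt (by positivity)

/-- second derivatives of `ph` outside the ball -/
theorem ph_hess (hB : ST_PHB) {b : ℝ} (hb : 0 < b) (i m : Fin 3) (y : R3) (hy : b < nr y) :
    pd i (pd m (ph b)) y = 3 * y i * y m / nr y ^ 5 - (if i = m then 1 else 0) / nr y ^ 3 := by
  have hr : 0 < nr y := hb.trans hy
  have hs : 0 < y 0 ^ 2 + y 1 ^ 2 + y 2 ^ 2 := by rw [← nr_sq]; positivity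
  have e1 : pd m (ph b) =ᶠ[𝓝 y] fun v => -(v m / nr v ^ 3) := by
    have e2 : ∀ᶠ v in 𝓝 y, b < nr v := nr_cont.continuousAt.eventually (lt_mem_nhds hy)
    filter_upwards [e2] with v hv
    exact (hB b hb).2.2.2 m v hv.le
  have hp : ∀ k : Fin 3, HasFDerivAt (fun v : R3 => v k)
      (ContinuousLinearMap.proj (R := ℝ) (φ := fun _ : Fin 3 => ℝ) k) y := fun k =>
    hasFDerivAt_apply k y
  have hq : HasFDerivAt (fun v : R3 => v 0 ^ 2 + v 1 ^ 2 + v 2 ^ 2) _ y :=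
    (((hp 0).pow 2).add ((hp 1).pow 2)).add ((hp 2).pow 2)
  have hn : HasFDerivAt nr _ y := hq.sqrt hs.ne'
  have hn3 : HasFDerivAt (fun v => nr v ^ 3) _ y := hn.pow 3
  have hi : HasFDerivAt (fun v => (nr v ^ 3)⁻¹) _ y :=
    HasDerivAt.comp_hasFDerivAt (f := fun v : R3 => nr v ^ 3) y
      (hasDerivAt_inv (by positivity : nr y ^ 3 ≠ 0)) hn3
  have hf := ((hp m).mul hi).neg
  have e3 : pd i (pd m (ph b)) y = fderiv ℝ (fun v => -(v m * (nr v ^ 3)⁻¹)) y (Pi.single i 1) := by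
    show fderiv ℝ (pd m (ph b)) y (Pi.single i 1) = _
    rw [e1.fderiv_eq]
    simp only [div_eq_mul_inv]
  rw [e3]
  have e4 := hf.fderiv
  have e5 : fderiv ℝ (fun v => -(v m * (nr v ^ 3)⁻¹)) y (Pi.single i 1) = _ :=
    congrArg (fun L : R3 →L[ℝ] ℝ => L (Pi.single i 1)) e4
  rw [e5]
  have hnr : Real.sqrt (y 0 ^ 2 + y 1 ^ 2 + y 2 ^ 2) = nr y := rfl
  fin_cases i <;> fin_cases m <;>
    (simp [hnr]; field_simp; try ring_nf; try (rw [nr_sq]; ring))

end Pool.Agent.Helper91.HV
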